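import Pool.Agent.N589.LL.Tasks

/-!
# Topology of the adelic group `GL_2(A_K)` (LL/08)
-/

open scoped WithZero Polynomial MatrixGroups Topology
open IsDedekindDomain RestrictedProduct Set Filter

noncomputable section

namespace N589LL

/-- `GL_2(O_v)` is compact. -/
lemma isCompact_Cv (h : TaskLocTop) (v : Place) : IsCompact (Cv v : Set (Gv v)) := by
  have := (h v).2.2.2
  have hO : IsCompact ((Ov v : Set (Kv v))) := isCompact_iff_compactSpace.2 this
  have hM : IsCompact {m : Matrix (Fin 2) (Fin 2) (Kv v) | ∀ i j, m i j ∈ (Ov v : Set (Kv v))} := by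
    have h1 : IsCompact {r : Fin 2 → Kv v | ∀ j, r j ∈ (Ov v : Set (Kv v))} :=
      isCompact_pi_infinite (fun j : Fin 2 => hO)
    exact isCompact_pi_infinite (X := fun _ : Fin 2 => (Fin 2 → Kv v)) (fun i : Fin 2 => h1)
  have h2 := (Units.isClosedEmbedding_embedProduct
    (α := Matrix (Fin 2) (Fin 2) (Kv v))).isCompact_preimage
      (hM.prod (hM.image MulOpposite.continuous_op))
  convert h2 using 1
  ext g
  simp only [SetLike.mem_coe, mem_preimage, mem_prod, Units.embedProduct_apply, mem_image,
    mem_ofPred_eq, MulOpposite.op_inj, exists_eq_right]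
  rfl

/-- The image of the product of the groups `GL_2(O_v)` in `GL_2(A_K)`. -/
lemma range_structureMap_Cv : Set.range (structureMap (fun v => Gv v)
    (fun v => (Cv v : Set (Gv v))) cofinite) = {g : GA | ∀ v, g v ∈ Cv v} := by
  rw [range_structureMap]
  rfl

/-- `∏_{v ≠ ∞} GL_2(O_v)` is compact. -/
lemma isCompact_Cfin (hL : TaskLocTop) (hC : ∀ v, IsOpen (Cv v : Set (Gv v))) :
    IsCompact (Cfin : Set GA) := by
  have hsm := isOpenEmbedding_structureMap (R := fun v => Gv v) (A := fun v => (Cv v : Set (Gv v)))
    hC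
  have : ∀ v, CompactSpace (Cv v : Set (Gv v)) := fun v =>
    isCompact_iff_compactSpace.1 (isCompact_Cv hL v)
  have h1 : IsCompact (Set.range (structureMap (fun v => Gv v) (fun v => (Cv v : Set (Gv v)))
    cofinite)) := isCompact_range hsm.continuous
  rw [range_structureMap_Cv] at h1
  have h2 : (Cfin : Set GA) = {g : GA | ∀ v, g v ∈ Cv v} ∩ {g : GA | g none = 1} := by
    ext g
    exact ⟨fun h => ⟨h.2, h.1⟩, fun h => ⟨h.2, h.1⟩⟩
  rw [h2]
  exact h1.inter_right (isClosed_singleton.preimage (continuous_eval none))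

theorem TaskGA_proof : TaskLocTop → TaskGl → TaskGA := by
  intro hL hG
  have hC : ∀ v, IsOpen (Cv v : Set (Gv v)) := fun v => (hG v).2.2.2.1
  have : Fact (∀ v, IsOpen (Cv v : Set (Gv v))) := ⟨hC⟩
  have hT : IsTopologicalGroup GA := inferInstance
  have hsm := isOpenEmbedding_structureMap (R := fun v => Gv v) (A := fun v => (Cv v : Set (Gv v)))
    hC
  refine ⟨hT, ?_, ?_, ?_⟩
  · intro v
    classical
    refine continuous_of_continuousAt_one (sing v) ?_
    have h1 : ContinuousOn (sing v) (Cv v : Set (Gv v)) := by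
      rw [continuousOn_iff_continuous_domRestrict]
      have h2 : Continuous (fun g : Cv v => structureMap (fun v => Gv v)
          (fun v => (Cv v : Set (Gv v))) cofinite (Pi.mulSingle (M := fun v => Cv v) v g)) :=
        hsm.continuous.comp (continuous_mulSingle (A := fun v => Cv v) v)
      refine h2.congr fun g => ?_
      ext w
      by_cases hw : w = v
      · subst hw
        simp [structureMap, sing]
      · simp [structureMap, sing, hw]
    exact h1.continuousAt ((hC v).mem_nhds (one_mem _))
  · intro U hU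
    have : CompactSpace Cfin := isCompact_iff_compactSpace.1 (isCompact_Cfin hL hC)
    have h3 : IsOpen ((U.subgroupOf Cfin : Subgroup Cfin) : Set Cfin) :=
      hU.preimage continuous_subtype_val
    have := (U.subgroupOf Cfin).quotient_finite_of_isOpen h3
    exact Subgroup.index_ne_zero_of_finite
  · intro H hH hle hfin
    have h1 : {g : GA | ∀ v, g v ∈ H v} = {g : GA | ∀ v, g.1 v ∈ (Cv v : Set (Gv v))} ∩
        ⋂ v ∈ {v | H v ≠ Cv v}, {g : GA | g v ∈ H v} := by
      ext g
      simp only [mem_ofPred_eq, mem_inter_iff, mem_iInter]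
      constructor
      · intro h
        exact ⟨fun v => hle v (h v), fun v _ => h v⟩
      · rintro ⟨h, h'⟩ v
        by_cases hv : H v = Cv v
        · rw [hv]; exact h v
        · exact h' v hv
    rw [h1]
    refine (isOpen_forall_mem hC).inter (hfin.isOpen_biInter fun v _ => ?_)
    exact (hH v).preimage (continuous_eval v)

end N589LL
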